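import Pool.Agent.Helper81.HodgeF.Iso

/-!
# Holomorphic forms: the final statement
-/

set_option autoImplicit false

namespace Pool.Agent.Hodge81

open Complex Module

variable {n : ℕ} {A B : Type*} [Ring A] [Algebra ℂ A] [FiniteDimensional ℂ A]
  [Ring B] [Algebra ℂ B] [FiniteDimensional ℂ B]

namespace IsMukaiIsometry

variable {X : HodgeRing n A} {Y : HodgeRing n B} {phi : A ≃ₗ[ℂ] B}

/-- `p ≤ n - 2` -/
theorem forms_low (hphi : IsMukaiIsometry X Y phi) {s : ℝ} {b : ℕ}
    (hX : IsSemiample X s b) (hY : IsSemiample Y s b) (hb : n ≤ b + 2) {p : ℕ} (hp : p + 2 ≤ n) :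
    X.h p 0 = Y.h p 0 := by
  have hj : n - p - 2 ≤ b := by omega
  have h1 := IsFormIsometry.main_aux (hphi.isFormIsometry hX hY (n - p - 2) hj)
    (p := p + 1) (q := 1) (by omega)
  have h2 := h1.1
  rw [show min (p + 1) 1 + 1 = 2 by omega] at h2
  simp only [Finset.sum_range_succ, Finset.sum_range_zero] at h2
  norm_num at h2
  rwa [X.h_Q hX _ _ hj (by omega), Y.h_Q hY _ _ hj (by omega)] at h2

/-- `p = n` -/
theorem forms_top (hphi : IsMukaiIsometry X Y phi) : X.h n 0 = Y.h n 0 := by
  have h1 := (main_aux hphi (p := n) (q := 0) (by omega)).2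
  rw [show min n 0 + 1 = 1 by omega] at h1
  simp only [Finset.sum_range_succ, Finset.sum_range_zero] at h1
  norm_num at h1
  omega

/-- `p = n - 1` -/
theorem forms_pred (hphi : IsMukaiIsometry X Y phi) {p : ℕ} (hp : p + 1 = n) :
    X.h p 0 = Y.h p 0 := by
  have c := column_sum hphi (a := p) (b := 0) (m := 1) (by omega) (Or.inr rfl)
  have x1 := X.h_serre (p := n) (q := 1) le_rfl (by omega)
  have y1 := Y.h_serre (p := n) (q := 1) le_rfl (by omega)
  have x2 := X.h_conj 0 p
  have y2 := Y.h_conj 0 p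
  simp only [Finset.sum_range_succ, Finset.sum_range_zero] at c
  subst hp
  norm_num at c x1 y1
  omega

theorem forms_all (hphi : IsMukaiIsometry X Y phi) {s : ℝ} {b : ℕ}
    (hX : IsSemiample X s b) (hY : IsSemiample Y s b) (hb : n ≤ b + 2) (p : ℕ) :
    X.h p 0 = Y.h p 0 := by
  rcases Nat.lt_or_ge n p with h | h
  · unfold HodgeRing.h
    rw [X.bounded p 0 (Or.inl h), Y.bounded p 0 (Or.inl h), finrank_bot, finrank_bot]
  · rcases Nat.lt_or_ge n (p + 2) with h' | h'
    · rcases Nat.eq_or_lt_of_le h with h'' | h''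
      · subst h''
        exact hphi.forms_top
      · exact hphi.forms_pred (by omega)
    · exact hphi.forms_low hX hY hb h'

/-- in dimension five, all Hodge numbers off the main diagonal -/
theorem fivefold_off {X : HodgeRing 5 A} {Y : HodgeRing 5 B} {phi : A ≃ₗ[ℂ] B}
    (hphi : IsMukaiIsometry X Y phi) (h : ∀ p, X.h p 0 = Y.h p 0) (p q : ℕ) (hpq : p ≠ q) :
    X.h p q = Y.h p q := by
  rcases Nat.even_or_odd (p + q) with hev | hodd
  · have c2 := column_sum hphi (a := 2) (b := 0) (m := 3) rfl (Or.inr rfl)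
    have x1 := X.h_serre (p := 5) (q := 3) (by norm_num) (by norm_num)
    have y1 := Y.h_serre (p := 5) (q := 3) (by norm_num) (by norm_num)
    have x2 := X.h_serre (p := 4) (q := 2) (by norm_num) (by norm_num)
    have y2 := Y.h_serre (p := 4) (q := 2) (by norm_num) (by norm_num)
    have x3 := X.h_conj 0 2
    have y3 := Y.h_conj 0 2
    have x4 := X.h_conj 1 3
    have y4 := Y.h_conj 1 3
    have h2 := h 2
    simp only [Finset.sum_range_succ, Finset.sum_range_zero] at c2
    norm_num at c2 x1 x2 y1 y2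
    have h31 : X.h 3 1 = Y.h 3 1 := by omega
    refine reduce X Y (fun p q => Even (p + q) ∧ p ≠ q)
      (fun p q h => ⟨by rw [add_comm]; exact h.1, fun h' => h.2 h'.symm⟩)
      (fun p q hp hq h => ⟨by
        have := h.1
        rw [Nat.even_iff] at this ⊢
        omega, by
        have := h.2
        omega⟩) (fun p q hqp hpq hev => ?_) p q ⟨hev, hpq⟩
    obtain ⟨hev, hne⟩ := hev
    rw [Nat.even_iff] at hev
    have hp : p ≤ 5 := by omega
    have hq : q ≤ 2 := by omega
    interval_cases q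
    · exact h p
    · interval_cases p <;> omega
    · interval_cases p <;> omega
  · exact fivefold_odd hphi (h 1) p q hodd

end IsMukaiIsometry

/-- the final form -/
theorem semiample_main (X : HodgeRing n A) (Y : HodgeRing n B) (phi : A ≃ₗ[ℂ] B)
    (hphi : IsMukaiIsometry X Y phi) (s : ℝ) (b : ℕ) (hX : IsSemiample X s b)
    (hY : IsSemiample Y s b) (hb : n ≤ b + 2) :
    (∀ p, X.h p 0 = Y.h p 0 ∧ X.h 0 p = Y.h 0 p) ∧
    (n = 4 → ∀ p q, X.h p q = Y.h p q) ∧
    (n = 5 → ∀ p q, p ≠ q → X.h p q = Y.h p q) := by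
  have h := hphi.forms_all hX hY hb
  refine ⟨fun p => ⟨h p, ?_⟩, fun hn => ?_, fun hn => ?_⟩
  · rw [X.h_conj 0 p, Y.h_conj 0 p]
    exact h p
  · subst hn
    exact fourfold hphi (h 1)
  · subst hn
    exact hphi.fivefold_off h

end Pool.Agent.Hodge81
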