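import Pool.Agent.Helper81.HodgeF.Main
import Pool.Agent.Helper81.Hodge.Main

/-!
# A Mukai isometry commutes with the first Chern class
-/

set_option autoImplicit false

namespace Pool.Agent.Hodge81

open Complex Module Polynomial

namespace HodgeRing

variable {n : ℕ} {A : Type*} [Ring A] [Algebra ℂ A] (X : HodgeRing n A)

theorem induct {P : A → Prop} (h : ∀ p q, ∀ a ∈ X.H p q, P a) (h0 : P 0)
    (hadd : ∀ a b, P a → P b → P (a + b)) (a : A) : P a := by
  have ha : a ∈ ⨆ x : ℕ × ℕ, X.H x.1 x.2 := by rw [X.iSup_H]; trivial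
  induction ha using Submodule.iSup_induction' with
  | mem x b hb => exact h _ _ b hb
  | zero => exact h0
  | add b c _ _ hb hc => exact hadd b c hb hc

theorem comm_of_mem {x : A} (hx : x ∈ X.H 1 1) (a : A) : a * x = x * a := by
  refine X.induct (P := fun a => a * x = x * a) (fun p q a ha => ?_) (by simp)
    (fun a b ha hb => by rw [add_mul, mul_add, ha, hb]) a
  rw [X.comm p q 1 1 a x ha hx]
  have : ((-1 : ℂ) ^ ((p + q) * (1 + 1))) = 1 := by
    rw [show (p + q) * (1 + 1) = 2 * (p + q) by ring, pow_mul]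
    norm_num
  rw [this, one_smul]

theorem comm_pow_of_mem {x : A} (hx : x ∈ X.H 1 1) (k : ℕ) (a : A) : a * x ^ k = x ^ k * a := by
  have h : Commute a x := X.comm_of_mem hx a
  exact h.pow_right k

theorem pow_succ_eq_zero {x : A} (hx : x ∈ X.H 1 1) : x ^ (n + 1) = 0 := by
  have h : ∀ a : A, x ^ (n + 1) * a = 0 := by
    refine X.induct (fun p q a ha => ?_) (by simp) (fun a b ha hb => by rw [mul_add, ha, hb,
      add_zero])
    have h1 := X.pow_mem hx ha (n + 1)
    rw [X.bounded _ _ (Or.inl (by omega))] at h1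
    simpa using h1
  simpa using h 1

theorem dual_mul {x : A} (hx : x ∈ X.H 1 1) (v : A) : X.dual (x * v) = -(x * X.dual v) := by
  refine X.induct (P := fun v => X.dual (x * v) = -(x * X.dual v)) (fun p q v hv => ?_) (by simp)
    (fun a b ha hb => by rw [mul_add, map_add, ha, hb, map_add, mul_add, neg_add]) v
  rw [X.dual_of_mem (X.mul_mem _ _ _ _ _ _ hx hv), X.dual_of_mem hv,
    show 1 + p + (1 + q) = (p + q) + 2 by ring, pow_add, I_sq, mul_smul_comm, mul_neg_one,
    neg_smul]

/-- the truncated exponential `exp (t c1)` -/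
noncomputable def expC (t : ℂ) : A :=
  ∑ j ∈ Finset.range (n + 1), (t ^ j * ((j.factorial : ℕ) : ℂ)⁻¹) • X.c1 ^ j

theorem expHalfC1_eq : X.expHalfC1 = X.expC (1 / 2) := by
  unfold expHalfC1 expC
  refine Finset.sum_congr rfl fun j _ => ?_
  congr 1
  push_cast
  rw [mul_inv, one_div, inv_pow]

theorem expC_mul (s t : ℂ) : X.expC s * X.expC t = X.expC (s + t) := by
  let _inst : Module ℚ A := Module.compHom A (algebraMap ℚ ℂ)
  have hq : ∀ (r : ℚ) (a : A), r • a = (r : ℂ) • a := fun r a => rfl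
  have hz : ∀ u : ℂ, (u • X.c1) ^ (n + 1) = 0 := fun u => by
    rw [_root_.smul_pow, X.pow_succ_eq_zero X.c1_mem, smul_zero]
  have key : ∀ u : ℂ, X.expC u = IsNilpotent.exp (u • X.c1) := by
    intro u
    rw [IsNilpotent.exp_eq_sum (hz u)]
    unfold expC
    refine Finset.sum_congr rfl fun j _ => ?_
    rw [hq, _root_.smul_pow, smul_smul]
    congr 1
    push_cast
    ring
  rw [key, key, key, add_smul]
  refine (IsNilpotent.exp_add_of_commute ?_ ⟨n + 1, hz s⟩ ⟨n + 1, hz t⟩).symm
  exact ((Commute.refl X.c1).smul_left s).smul_right t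

theorem expC_zero : X.expC 0 = 1 := by
  unfold expC
  rw [Finset.sum_eq_single 0]
  · simp
  · intro j _ hj
    rw [zero_pow hj, zero_mul, zero_smul]
  · intro h
    simp at h

theorem expC_comm (t : ℂ) (v : A) : v * X.expC t = X.expC t * v := by
  unfold expC
  rw [Finset.mul_sum, Finset.sum_mul]
  refine Finset.sum_congr rfl fun j _ => ?_
  rw [mul_smul_comm, smul_mul_assoc, X.comm_pow_of_mem X.c1_mem]

theorem dual_pow_mul (j : ℕ) (v : A) :
    X.dual (X.c1 ^ j * v) = (-1 : ℂ) ^ j • (X.c1 ^ j * X.dual v) := by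
  induction j with
  | zero => simp
  | succ j ih =>
    rw [pow_succ', mul_assoc, X.dual_mul X.c1_mem, ih, mul_smul_comm, pow_succ, mul_assoc,
      mul_neg_one, neg_smul]

theorem dual_expC (t : ℂ) (v : A) : X.dual (X.expC t * v) = X.expC (-t) * X.dual v := by
  unfold expC
  rw [Finset.sum_mul, Finset.sum_mul, map_sum]
  refine Finset.sum_congr rfl fun j _ => ?_
  rw [smul_mul_assoc, map_smul, X.dual_pow_mul, smul_smul, smul_mul_assoc, neg_pow t j]
  congr 1
  ring

/-- the pairing without `c1` -/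
noncomputable def h0 (v w : A) : ℂ := X.int (X.dual v * w)

theorem h0_add_left (v v' w : A) : X.h0 (v + v') w = X.h0 v w + X.h0 v' w := by
  simp [h0, add_mul]

theorem h0_add_right (v w w' : A) : X.h0 v (w + w') = X.h0 v w + X.h0 v w' := by
  simp [h0, mul_add]

theorem mukai_eq_h0 (v w : A) : X.mukai v w = X.h0 (X.expC (-(1 / 2)) * v) w := by
  rw [mukai, h0, X.dual_expC, neg_neg, expHalfC1_eq]

theorem h0_eq_mukai (v w : A) : X.h0 v w = X.mukai (X.expC (1 / 2) * v) w := by
  rw [mukai_eq_h0, ← mul_assoc, X.expC_mul, neg_add_cancel, X.expC_zero, one_mul]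

theorem h0_swap (v w : A) : X.h0 w v = (-1) ^ n * X.h0 v w := by
  refine X.induct (P := fun v => X.h0 w v = (-1) ^ n * X.h0 v w) (fun p q v hv => ?_)
    (by simp [h0]) (fun a b ha hb => by rw [h0_add_left, h0_add_right, ha, hb, mul_add]) v
  refine X.induct (P := fun w => X.h0 w v = (-1) ^ n * X.h0 v w) (fun p' q' w hw => ?_)
    (by simp [h0]) (fun a b ha hb => by rw [h0_add_left, h0_add_right, ha, hb, mul_add]) w
  rw [h0, h0, X.dual_of_mem hv, X.dual_of_mem hw, smul_mul_assoc, smul_mul_assoc, map_smul,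
    map_smul, smul_eq_mul, smul_eq_mul]
  by_cases hpq : (p + p', q + q') = (n, n)
  · simp only [Prod.mk.injEq] at hpq
    rw [X.comm _ _ _ _ _ _ hw hv, map_smul, smul_eq_mul]
    have e0 : ∀ m : ℕ, (-1 : ℂ) ^ m * (-1) ^ m = 1 := fun m => by rw [← mul_pow]; norm_num
    have e1 : (-1 : ℂ) ^ ((p' + q') * (p + q)) = (-1) ^ (p + q) := by
      have hm : (p' + q') * (p + q) + (p + q) * (p + q) = 2 * (n * (p + q)) := by
        rw [← add_mul, show p' + q' + (p + q) = 2 * n by omega]; ring
      have h1 : (-1 : ℂ) ^ ((p' + q') * (p + q)) * (-1) ^ ((p + q) * (p + q)) = 1 := by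
        rw [← pow_add, hm, pow_mul]
        norm_num
      have h2 : (-1 : ℂ) ^ ((p + q) * (p + q)) = (-1) ^ (p + q) := by
        rcases Nat.even_or_odd (p + q) with he | ho
        · rw [he.neg_one_pow, (he.mul_left _).neg_one_pow]
        · rw [ho.neg_one_pow, (ho.mul ho).neg_one_pow]
      rw [h2] at h1
      have h3 := e0 (p + q)
      calc (-1 : ℂ) ^ ((p' + q') * (p + q))
          = (-1 : ℂ) ^ ((p' + q') * (p + q)) * ((-1) ^ (p + q) * (-1) ^ (p + q)) := by
            rw [h3, mul_one]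
        _ = (-1) ^ (p + q) := by rw [← mul_assoc, h1, one_mul]
    have e2 : I ^ (p' + q') * (-1) ^ (p + q) = (-1) ^ n * I ^ (p + q) := by
      have h1 : I ^ (p' + q') * I ^ (p + q) = (-1) ^ n := by
        rw [← pow_add, show p' + q' + (p + q) = 2 * n by omega, pow_mul, I_sq]
      have h2 : (-1 : ℂ) ^ (p + q) = I ^ (p + q) * I ^ (p + q) := by
        rw [← mul_pow, I_mul_I]
      rw [h2, ← mul_assoc, h1]
    rw [e1, ← mul_assoc, e2]
    ring
  · have h1 : X.int (v * w) = 0 := X.int_off _ _ _ (X.mul_mem _ _ _ _ _ _ hv hw) hpq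
    have h2 : X.int (w * v) = 0 := X.int_off _ _ _ (X.mul_mem _ _ _ _ _ _ hw hv) (by
      rwa [add_comm p' p, add_comm q' q])
    rw [h1, h2]
    ring

theorem h0_expC (t : ℂ) (v w : A) : X.h0 v (X.expC t * w) = X.h0 (X.expC (-t) * v) w := by
  rw [h0, h0, X.dual_expC, neg_neg, ← mul_assoc, X.expC_comm]

theorem mukai_swap (v w : A) : X.mukai w v = (-1) ^ n * X.mukai (X.expC 1 * v) w := by
  rw [mukai_eq_h0, X.h0_swap, X.h0_expC, neg_neg, mukai_eq_h0, ← mul_assoc, X.expC_mul]
  norm_num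

theorem dual_dual (v : A) : X.dual (X.dual (X.dual (X.dual v))) = v := by
  refine X.induct (P := fun v => X.dual (X.dual (X.dual (X.dual v))) = v) (fun p q v hv => ?_)
    (by simp) (fun a b ha hb => by simp only [map_add, ha, hb]) v
  simp only [X.dual_of_mem hv, map_smul, smul_smul, ← pow_add]
  rw [show p + q + (p + q) + (p + q) + (p + q) = 4 * (p + q) by ring,
    pow_mul, I_pow_four, one_pow, one_smul]

theorem mukai_nondeg {v : A} (h : ∀ w, X.mukai v w = 0) : v = 0 := by
  have h1 : X.expHalfC1 * X.dual v = 0 := X.poincare _ h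
  rw [expHalfC1_eq] at h1
  have h2 : X.dual v = 0 := by
    have := congrArg (fun a => X.expC (-(1 / 2)) * a) h1
    simp only [mul_zero] at this
    rwa [← mul_assoc, X.expC_mul, neg_add_cancel, X.expC_zero, one_mul] at this
  rw [← X.dual_dual v, h2]
  simp

end HodgeRing

variable {n : ℕ} {A B : Type*} [Ring A] [Algebra ℂ A] [Ring B] [Algebra ℂ B]

namespace IsMukaiIsometry

variable {X : HodgeRing n A} {Y : HodgeRing n B} {phi : A ≃ₗ[ℂ] B}

theorem expC_one (hphi : IsMukaiIsometry X Y phi) (v : A) :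
    phi (X.expC 1 * v) = Y.expC 1 * phi v := by
  rw [← sub_eq_zero]
  refine Y.mukai_nondeg fun w => ?_
  obtain ⟨w, rfl⟩ := phi.surjective w
  have h1 := X.mukai_swap v w
  have h2 := Y.mukai_swap (phi v) (phi w)
  rw [hphi.mukai, h1] at h2
  have h3 : X.mukai (X.expC 1 * v) w = Y.mukai (Y.expC 1 * phi v) (phi w) :=
    mul_left_cancel₀ (pow_ne_zero _ (by norm_num)) h2
  rw [sub_eq_add_neg, Y.mukai_add_left, hphi.mukai, h3, ← neg_one_smul ℂ (Y.expC 1 * phi v),
    Y.mukai_smul_left]
  ring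

/-- polynomials in `c1` which commute with `phi` -/
def good (X : HodgeRing n A) (Y : HodgeRing n B) (phi : A ≃ₗ[ℂ] B) : Subalgebra ℂ ℂ[X] where
  carrier := {P | ∀ v, phi (aeval X.c1 P * v) = aeval Y.c1 P * phi v}
  mul_mem' := fun {P Q} hP hQ v => by
    rw [map_mul (aeval X.c1), map_mul (aeval Y.c1), mul_assoc, hP, hQ, mul_assoc]
  add_mem' := fun {P Q} hP hQ v => by
    rw [map_add (aeval X.c1), map_add (aeval Y.c1), add_mul, add_mul, map_add, hP, hQ]
  algebraMap_mem' := fun r v => by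
    rw [AlgHom.commutes, AlgHom.commutes, Algebra.algebraMap_eq_smul_one,
      Algebra.algebraMap_eq_smul_one]
    simp

theorem X_mem_good (hphi : IsMukaiIsometry X Y phi) : (Polynomial.X : ℂ[X]) ∈ good X Y phi := by
  set G := good X Y phi with hG
  have hexp : (∑ j ∈ Finset.range (n + 1), ((1 : ℂ) ^ j * ((j.factorial : ℕ) : ℂ)⁻¹) •
      (Polynomial.X : ℂ[X]) ^ j) ∈ G := by
    intro v
    have h1 := hphi.expC_one v
    unfold HodgeRing.expC at h1
    simpa only [map_sum, map_smul, map_pow, aeval_X] using h1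
  have hbig : ∀ k, n + 1 ≤ k → (Polynomial.X : ℂ[X]) ^ k ∈ G := by
    intro k hk v
    obtain ⟨m, rfl⟩ := Nat.exists_eq_add_of_le hk
    have h1 : X.c1 ^ (n + 1 + m) = 0 := by
      rw [pow_add, X.pow_succ_eq_zero X.c1_mem, zero_mul]
    have h2 : Y.c1 ^ (n + 1 + m) = 0 := by
      rw [pow_add, Y.pow_succ_eq_zero Y.c1_mem, zero_mul]
    simp [h1, h2]
  rcases Nat.eq_zero_or_pos n with hn0 | hn0
  · have := hbig 1 (by omega)
    rwa [pow_one] at this
  obtain ⟨r, hr⟩ : ∃ r : ℂ[X], (∑ j ∈ Finset.range (n + 1),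
      ((1 : ℂ) ^ j * ((j.factorial : ℕ) : ℂ)⁻¹) • (Polynomial.X : ℂ[X]) ^ j) =
      1 + Polynomial.X * (1 + Polynomial.X * r) := by
    refine ⟨∑ j ∈ Finset.range (n - 1), ((1 : ℂ) ^ (j + 2) * (((j + 2).factorial : ℕ) : ℂ)⁻¹) •
      (Polynomial.X : ℂ[X]) ^ j, ?_⟩
    obtain ⟨m, rfl⟩ : ∃ m, n = m + 1 := ⟨n - 1, by omega⟩
    rw [Finset.sum_range_succ', Finset.sum_range_succ', Nat.add_sub_cancel, Finset.mul_sum]
    simp only [zero_add, pow_zero, Nat.factorial_zero, Nat.cast_one, inv_one, mul_one, one_smul,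
      pow_one, Nat.factorial_one, one_pow, one_mul]
    rw [mul_add, mul_one, Finset.mul_sum]
    have : ∀ j : ℕ, (((j + 1 + 1).factorial : ℂ)⁻¹ • (Polynomial.X : ℂ[X]) ^ (j + 1 + 1)) =
        Polynomial.X * (Polynomial.X * (((j + 2).factorial : ℂ)⁻¹ • Polynomial.X ^ j)) := by
      intro j
      rw [mul_smul_comm, mul_smul_comm]
      congr 1
      ring
    simp only [this]
    ring
  set e : ℂ[X] := Polynomial.X * (1 + Polynomial.X * r) with he
  have heG : e ∈ G := by
    have h1 := G.sub_mem hexp (G.one_mem)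
    rw [hr] at h1
    simpa using h1
  have hall : ∀ d k, 1 ≤ k → n + 1 ≤ k + d → (Polynomial.X : ℂ[X]) ^ k ∈ G := by
    intro d
    induction d with
    | zero => intro k _ hk; exact hbig k (by omega)
    | succ d ih =>
      intro k hk1 hk
      obtain ⟨s, hs⟩ : Polynomial.X * r ∣ (1 + Polynomial.X * r) ^ k - 1 ^ k := by
        have := sub_dvd_pow_sub_pow (1 + Polynomial.X * r) 1 k
        rwa [add_sub_cancel_left] at this
      have hek : Polynomial.X ^ k = e ^ k - Polynomial.X ^ (k + 1) * (r * s) := by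
        have h1 : (1 + Polynomial.X * r) ^ k = 1 + Polynomial.X * r * s := by
          rw [← hs]; ring
        rw [he, mul_pow, h1]
        ring
      rw [hek]
      refine G.sub_mem (G.pow_mem heG k) ?_
      generalize r * s = q
      induction q using Polynomial.induction_on' with
      | add a b ha hb => rw [mul_add]; exact G.add_mem ha hb
      | monomial m c =>
        have e2 : (Polynomial.X : ℂ[X]) ^ (k + 1) * Polynomial.monomial m c =
            c • Polynomial.X ^ (k + 1 + m) := by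
          rw [← Polynomial.C_mul_X_pow_eq_monomial, Polynomial.smul_eq_C_mul]
          ring
        rw [e2]
        exact G.smul_mem (ih (k + 1 + m) (by omega) (by omega)) c
  have := hall n 1 le_rfl (by omega)
  rwa [pow_one] at this

theorem c1_mul (hphi : IsMukaiIsometry X Y phi) (v : A) : phi (X.c1 * v) = Y.c1 * phi v := by
  have := hphi.X_mem_good v
  simpa using this

theorem c1_pow_mul (hphi : IsMukaiIsometry X Y phi) (j : ℕ) (v : A) :
    phi (X.c1 ^ j * v) = Y.c1 ^ j * phi v := by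
  induction j with
  | zero => simp
  | succ j ih => rw [pow_succ', mul_assoc, hphi.c1_mul, ih, pow_succ', mul_assoc]

theorem expC_all (hphi : IsMukaiIsometry X Y phi) (t : ℂ) (v : A) :
    phi (X.expC t * v) = Y.expC t * phi v := by
  unfold HodgeRing.expC
  rw [Finset.sum_mul, Finset.sum_mul, map_sum]
  refine Finset.sum_congr rfl fun j _ => ?_
  rw [smul_mul_assoc, map_smul, hphi.c1_pow_mul, smul_mul_assoc]

/-- the pairing without `c1` is preserved as well -/
theorem h0 (hphi : IsMukaiIsometry X Y phi) (v w : A) : Y.h0 (phi v) (phi w) = X.h0 v w := by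
  rw [Y.h0_eq_mukai, ← hphi.expC_all, hphi.mukai, ← X.h0_eq_mukai]

end IsMukaiIsometry

end Pool.Agent.Hodge81
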