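import Pool.Agent.Helper81.HodgeF.Defs
import Pool.Agent.Helper81.Hodge.Col

/-!
# One column of the Hodge diamond

`a + b + 2r = n`, `a = 0` or `b = 0`; the pieces `H (a+j) (b+j)`, `j ≤ 2r`, make up the column of
index `a - b`, and the middle piece is `j = r`.
-/

set_option autoImplicit false

namespace Pool.Agent.Hodge81

open Complex Module

namespace HodgeForm

variable {n : ℕ} {A : Type*} [AddCommGroup A] [Module ℂ A] (X : HodgeForm n A)

theorem column_eq {a b m : ℕ} (hn : a + b + m = n) (hab : a = 0 ∨ b = 0) :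
    X.column ((a : ℤ) - (b : ℤ)) = ⨆ j ∈ Finset.range (m + 1), X.H (a + j) (b + j) := by
  apply le_antisymm
  · unfold column
    refine iSup₂_le ?_
    rintro ⟨x, y⟩ hxy
    simp only at hxy
    obtain ⟨j, hx, hy⟩ : ∃ j, x = a + j ∧ y = b + j := by
      rcases hab with rfl | rfl
      · exact ⟨x, by omega, by omega⟩
      · exact ⟨y, by omega, by omega⟩
    subst hx hy
    by_cases hj : j ∈ Finset.range (m + 1)
    · exact le_iSup₂ (f := fun j (_ : j ∈ Finset.range (m + 1)) => X.H (a + j) (b + j)) j hj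
    · simp only
      rw [X.bounded _ _ (by simp only [Finset.mem_range] at hj; omega)]
      exact bot_le
  · refine iSup₂_le fun j _ => ?_
    unfold column
    exact le_iSup₂ (f := fun (x : ℕ × ℕ) (_ : (x.1 : ℤ) - (x.2 : ℤ) = (a : ℤ) - (b : ℤ)) =>
      X.H x.1 x.2) (a + j, b + j) (by push_cast; ring)

theorem indep_piece (a b : ℕ) : iSupIndep (fun j => X.H (a + j) (b + j)) := by
  have h := X.indep.comp (f := fun j : ℕ => (a + j, b + j)) (fun i j hij => by
    simp only [Prod.mk.injEq] at hij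
    omega)
  exact h

theorem disjoint_piece (a b : ℕ) {i : ℕ} {t : Finset ℕ} (h : i ∉ t) :
    Disjoint (X.H (a + i) (b + i)) (⨆ j ∈ t, X.H (a + j) (b + j)) := by
  have := (X.indep_piece a b).disjoint_biSup (x := i) (y := (t : Set ℕ)) (by simpa using h)
  simpa using this

/-- the form is nondegenerate on the column -/
theorem form_nondeg {a b r : ℕ} (hn : a + b + 2 * r = n)
    {v : A} (hv : v ∈ ⨆ j ∈ Finset.range (2 * r + 1), X.H (a + j) (b + j))
    (h : ∀ w ∈ ⨆ j ∈ Finset.range (2 * r + 1), X.H (a + j) (b + j), X.form v w = 0) : v = 0 := by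
  classical
  obtain ⟨mu, hmu⟩ := (Submodule.mem_iSup_finset_iff_exists_sum _ _).1 hv
  by_contra hv0
  have hex : ∃ j, j ∈ Finset.range (2 * r + 1) ∧ (mu j : A) ≠ 0 := by
    by_contra hcon
    push Not at hcon
    exact hv0 (by rw [← hmu]; exact Finset.sum_eq_zero hcon)
  obtain ⟨hj, hjne⟩ := Nat.find_spec hex
  set j := Nat.find hex with hjdef
  have hmin : ∀ l, l < j → l ∈ Finset.range (2 * r + 1) → (mu l : A) = 0 := by
    intro l hl hlr
    by_contra hne
    exact Nat.find_min hex hl ⟨hlr, hne⟩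
  have hjr : j ≤ 2 * r := by simp only [Finset.mem_range] at hj; omega
  obtain ⟨w, hw, hne⟩ := X.exists_form_ne (p := a + j) (q := b + j) (by omega) (by omega)
    (by omega) (mu j).2 hjne
  have hw' : w ∈ X.H (a + (2 * r - j)) (b + (2 * r - j)) := by
    rwa [show n - (b + j) = a + (2 * r - j) by omega,
      show n - (a + j) = b + (2 * r - j) by omega] at hw
  have hwC : w ∈ ⨆ j ∈ Finset.range (2 * r + 1), X.H (a + j) (b + j) :=
    Submodule.mem_iSup_of_mem (2 * r - j)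
      (Submodule.mem_iSup_of_mem (by simp only [Finset.mem_range]; omega) hw')
  apply hne
  have h1 := h w hwC
  rw [← hmu, map_sum, LinearMap.sum_apply, Finset.sum_eq_single_of_mem j hj] at h1
  · exact h1
  · intro l hl hlj
    rcases lt_or_gt_of_ne hlj with hlt | hgt
    · rw [hmin l hlt hl]; simp
    · exact X.form_eq_zero (mu l).2 hw' (by omega)

/-- primitive classes in `H (a+r-k) (b+r-k)` -/
noncomputable def prim (a b r k : ℕ) : Submodule ℂ A :=
  X.H (a + (r - k)) (b + (r - k)) ⊓ LinearMap.ker (X.L ^ (2 * k + 1))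

/-- their images in the middle -/
noncomputable def primMid (a b r k : ℕ) : Submodule ℂ A :=
  (X.prim a b r k).map (X.L ^ k)

theorem primMid_le {a b r k : ℕ} (hk : k ≤ r) : X.primMid a b r k ≤ X.H (a + r) (b + r) := by
  rintro _ ⟨y, ⟨hy, -⟩, rfl⟩
  have := X.pow_mem hy k
  rwa [show a + (r - k) + k = a + r by omega, show b + (r - k) + k = b + r by omega] at this

theorem form_mid {a b r k l : ℕ} (hn : a + b + 2 * r = n) (hk : k ≤ r) (hl : l ≤ r) {y z : A}
    (hy : y ∈ X.H (a + (r - k)) (b + (r - k))) (hz : z ∈ X.H (a + (r - l)) (b + (r - l))) :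
    X.form ((X.L ^ k) y) ((X.L ^ l) z) =
      2 * (I ^ n * X.B ((X.L ^ (k + l)) y) (X.conj z)).re := by
  have h1 := X.pow_mem hy k
  have h2 := X.pow_mem hz l
  rw [X.form_lead h1 h2 (by omega) (by omega), X.pow_conj,
    show a + (r - k) + k + (b + (r - k) + k) = n by omega, ← X.pow_adj, add_comm k l, pow_add,
    Module.End.mul_apply]

theorem form_primMid_of_ne {a b r k l : ℕ} (hn : a + b + 2 * r = n) (hk : k ≤ r) (hl : l ≤ r)
    (hkl : k ≠ l) {y z : A} (hy : y ∈ X.primMid a b r k) (hz : z ∈ X.primMid a b r l) :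
    X.form y z = 0 := by
  have key : ∀ k l : ℕ, k ≤ r → l ≤ r → k < l → ∀ y ∈ X.primMid a b r k, ∀ z ∈ X.primMid a b r l,
      X.form y z = 0 := by
    rintro k l hk hl hkl _ ⟨y, ⟨hy, hy1⟩, rfl⟩ _ ⟨z, ⟨hz, -⟩, rfl⟩
    rw [X.form_mid hn hk hl hy hz]
    have h0 : (X.L ^ (k + l)) y = 0 := by
      have hy2 : (X.L ^ (2 * k + 1)) y = 0 := hy1
      rw [show k + l = (l - k - 1) + (2 * k + 1) by omega, pow_add, Module.End.mul_apply, hy2,
        map_zero]
    rw [h0]
    simp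
  rcases lt_or_gt_of_ne hkl with h | h
  · exact key k l hk hl h y hy z hz
  · rw [X.form_symm]
    exact key l k hl hk h z hz y hy

theorem form_primMid_pos {a b r k : ℕ} (hn : a + b + 2 * r = n) (hk : k ≤ r) {y : A}
    (hy : y ∈ X.primMid a b r k) (h0 : y ≠ 0) :
    0 < (-1 : ℝ) ^ (b + r + n * (n - 1) / 2) * (-1) ^ k * X.form y y := by
  obtain ⟨x, ⟨hx, hx1⟩, rfl⟩ := hy
  have hx0 : x ≠ 0 := fun h => h0 (by rw [h, map_zero])
  have hx2 : (X.L ^ (2 * k + 1)) x = 0 := hx1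
  obtain ⟨rho, hrho, he⟩ := X.hodgeRiemann _ _ x hx (by omega)
    (by rwa [show n - (a + (r - k) + (b + (r - k))) + 1 = 2 * k + 1 by omega]) hx0
  rw [X.form_mid hn hk hk hx hx]
  rw [show n - (a + (r - k) + (b + (r - k))) = k + k by omega] at he
  obtain ⟨s, hs⟩ : ∃ s, r = k + s := ⟨r - k, by omega⟩
  subst hs
  simp only [Nat.add_sub_cancel_left] at he hx ⊢
  set J := X.B ((X.L ^ (k + k)) x) (X.conj x) with hJ
  have hsg := HodgeRing.sign_choose (a + s + (b + s)) k
  rw [show a + s + (b + s) + 2 * k = n by omega] at hsg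
  have hkk : (-1 : ℂ) ^ k * (-1) ^ k = 1 := by rw [← mul_pow]; norm_num
  have hI2 : I ^ n * J = (-1) ^ (b + (k + s) + n * (n - 1) / 2) * (-1) ^ k * (rho : ℂ) := by
    rw [← he, pow_add (-1 : ℂ) (b + (k + s)), hsg]
    have e1 : I ^ n = I ^ (a + s) * I ^ (b + s) * ((-1) ^ k) := by
      rw [← hn, show a + b + 2 * (k + s) = (a + s) + (b + s) + 2 * k by ring, pow_add, pow_add,
        pow_mul I 2 k, I_sq]
    have e2 : (-I) ^ (b + s) = (-1) ^ (b + s) * I ^ (b + s) := by rw [neg_pow]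
    have e3 : ∀ m : ℕ, (-1 : ℂ) ^ m * (-1) ^ m = 1 := fun m => by rw [← mul_pow]; norm_num
    rw [e1, e2, show b + (k + s) = (b + s) + k by ring, pow_add (-1 : ℂ) (b + s) k]
    have e7 := e3 (b + s)
    have e8 := e3 ((a + s + (b + s)) * (a + s + (b + s) - 1) / 2)
    have e9 := e3 k
    generalize (-1 : ℂ) ^ (b + s) = v at e7 ⊢
    generalize (-1 : ℂ) ^ ((a + s + (b + s)) * (a + s + (b + s) - 1) / 2) = w at e8 ⊢
    generalize (-1 : ℂ) ^ k = u at e9 ⊢
    have e10 : v * u * (w * u) * u * (I ^ (a + s) * (v * I ^ (b + s)) * w * J) =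
        (v * v) * (w * w) * (u * u) * (I ^ (a + s) * I ^ (b + s) * u * J) := by ring
    rw [e10, e7, e8, e9]
    ring
  rw [hI2]
  have e4 : ((-1 : ℂ) ^ (b + (k + s) + n * (n - 1) / 2) * (-1) ^ k * (rho : ℂ)) =
      (((-1 : ℝ) ^ (b + (k + s) + n * (n - 1) / 2) * (-1) ^ k * rho : ℝ) : ℂ) := by push_cast; ring
  rw [e4, Complex.ofReal_re]
  have e5 : ∀ m : ℕ, (-1 : ℝ) ^ m * (-1) ^ m = 1 := fun m => by rw [← mul_pow]; norm_num
  have e6 : (-1 : ℝ) ^ (b + (k + s) + n * (n - 1) / 2) * (-1) ^ k *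
      (2 * ((-1 : ℝ) ^ (b + (k + s) + n * (n - 1) / 2) * (-1) ^ k * rho)) =
      2 * rho * ((-1 : ℝ) ^ (b + (k + s) + n * (n - 1) / 2) *
        (-1 : ℝ) ^ (b + (k + s) + n * (n - 1) / 2)) * ((-1 : ℝ) ^ k * (-1) ^ k) := by ring
  rw [e6, e5, e5]
  linarith

end HodgeForm

end Pool.Agent.Hodge81
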