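import Pool.Agent.Helper81.Hodge.Basic

/-!
# Polarised bigraded spaces

The part of the structure of `H^*(X, ℂ)` which is used in the signature argument, without the ring:
a pairing, the Lefschetz operator and the Hodge-Riemann relations. Quotients of `H^*(X, ℂ)` by the
kernel of a power of the canonical class carry such a structure as well.
-/

set_option autoImplicit false

namespace Pool.Agent.Hodge81

open Complex Module

/-- a polarised bigraded space of dimension `n` -/
structure HodgeForm (n : ℕ) (V : Type*) [AddCommGroup V] [Module ℂ V] where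
  H : ℕ → ℕ → Submodule ℂ V
  internal : DirectSum.IsInternal (fun x : ℕ × ℕ => H x.1 x.2)
  bounded : ∀ p q, n < p ∨ n < q → H p q = ⊥
  conj : V →+ V
  conj_smul : ∀ (z : ℂ) a, conj (z • a) = (starRingEnd ℂ) z • conj a
  conj_conj : ∀ a, conj (conj a) = a
  conj_mem : ∀ p q a, a ∈ H p q → conj a ∈ H q p
  B : V →ₗ[ℂ] V →ₗ[ℂ] ℂ
  B_conj : ∀ a b, B (conj a) (conj b) = (starRingEnd ℂ) (B a b)
  B_off : ∀ p q p' q' a b, a ∈ H p q → b ∈ H p' q' → (p + p', q + q') ≠ (n, n) → B a b = 0
  B_comm : ∀ p q p' q' a b, a ∈ H p q → b ∈ H p' q' →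
    B a b = (-1 : ℂ) ^ ((p + q) * (p' + q')) * B b a
  nondeg : ∀ a, (∀ b, B a b = 0) → a = 0
  L : V →ₗ[ℂ] V
  L_mem : ∀ p q a, a ∈ H p q → L a ∈ H (p + 1) (q + 1)
  L_conj : ∀ a, conj (L a) = L (conj a)
  L_adj : ∀ a b, B (L a) b = B a (L b)
  hodgeRiemann : ∀ p q a, a ∈ H p q → p + q ≤ n → (L ^ (n - (p + q) + 1)) a = 0 → a ≠ 0 →
    ∃ r : ℝ, 0 < r ∧ I ^ p * (-I) ^ q * (-1) ^ ((p + q) * (p + q - 1) / 2) *
      B ((L ^ (n - (p + q))) a) (conj a) = (r : ℂ)

namespace HodgeForm

variable {n : ℕ} {V : Type*} [AddCommGroup V] [Module ℂ V] (X : HodgeForm n V)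

noncomputable def h (p q : ℕ) : ℕ := Module.finrank ℂ (X.H p q)

def column (i : ℤ) : Submodule ℂ V :=
  ⨆ (x : ℕ × ℕ) (_ : (x.1 : ℤ) - (x.2 : ℤ) = i), X.H x.1 x.2

noncomputable def dual : V →ₗ[ℂ] V :=
  (DirectSum.toModule ℂ (ℕ × ℕ) V
      (fun x => (I ^ (x.1 + x.2) : ℂ) • (X.H x.1 x.2).subtype)) ∘ₗ
    (LinearEquiv.ofBijective (DirectSum.coeLinearMap (fun x : ℕ × ℕ => X.H x.1 x.2))
      X.internal).symm.toLinearMap

theorem dual_of_mem {p q : ℕ} {a : V} (ha : a ∈ X.H p q) : X.dual a = I ^ (p + q) • a := by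
  have h1 : (LinearEquiv.ofBijective (DirectSum.coeLinearMap (fun x : ℕ × ℕ => X.H x.1 x.2))
      X.internal).symm a = DirectSum.lof ℂ (ℕ × ℕ) (fun x => X.H x.1 x.2) (p, q) ⟨a, ha⟩ := by
    rw [LinearEquiv.symm_apply_eq]
    exact (DirectSum.coeLinearMap_lof (fun x : ℕ × ℕ => X.H x.1 x.2) (p, q) ⟨a, ha⟩).symm
  simp only [dual, LinearMap.comp_apply, LinearEquiv.coe_coe, h1, DirectSum.toModule_lof,
    LinearMap.smul_apply, Submodule.subtype_apply]

theorem pow_mem {p q : ℕ} {a : V} (ha : a ∈ X.H p q) (k : ℕ) :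
    (X.L ^ k) a ∈ X.H (p + k) (q + k) := by
  induction k with
  | zero => simpa using ha
  | succ k ih =>
    rw [pow_succ', Module.End.mul_apply]
    exact X.L_mem _ _ _ ih

theorem pow_adj (a b : V) (k : ℕ) : X.B ((X.L ^ k) a) b = X.B a ((X.L ^ k) b) := by
  induction k generalizing b with
  | zero => simp
  | succ k ih =>
    rw [pow_succ', Module.End.mul_apply, X.L_adj, ih, ← Module.End.mul_apply, ← pow_succ,
      pow_succ']

theorem pow_conj (a : V) (k : ℕ) : X.conj ((X.L ^ k) a) = (X.L ^ k) (X.conj a) := by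
  induction k with
  | zero => simp
  | succ k ih => rw [pow_succ', Module.End.mul_apply, X.L_conj, ih, Module.End.mul_apply]

theorem conj_real_smul (r : ℝ) (a : V) : X.conj (r • a) = r • X.conj a := by
  rw [← Complex.coe_smul r a, X.conj_smul, Complex.conj_ofReal, Complex.coe_smul]

/-- the real symmetric form -/
noncomputable def form : LinearMap.BilinForm ℝ V :=
  LinearMap.mk₂ ℝ (fun v w => (X.B (X.dual v) (X.conj w)).re + (X.B (X.dual w) (X.conj v)).re)
    (fun v v' w => by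
      simp only [map_add, LinearMap.add_apply, Complex.add_re]; ring)
    (fun r v w => by
      simp only [← Complex.coe_smul, X.conj_smul, Complex.conj_ofReal, map_smul,
        LinearMap.smul_apply, smul_eq_mul, Complex.re_ofReal_mul]; ring)
    (fun v w w' => by
      simp only [map_add, LinearMap.add_apply, Complex.add_re]; ring)
    (fun r v w => by
      simp only [← Complex.coe_smul, X.conj_smul, Complex.conj_ofReal, map_smul,
        LinearMap.smul_apply, smul_eq_mul, Complex.re_ofReal_mul]; ring)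

theorem form_apply (v w : V) :
    X.form v w = (X.B (X.dual v) (X.conj w)).re + (X.B (X.dual w) (X.conj v)).re := rfl

theorem form_symm (v w : V) : X.form v w = X.form w v := by
  rw [form_apply, form_apply, add_comm]

theorem form_eq_zero {p q p' q' : ℕ} {v w : V} (hv : v ∈ X.H p q) (hw : w ∈ X.H p' q')
    (h : p + q + p' + q' ≠ 2 * n) : X.form v w = 0 := by
  rw [form_apply, X.dual_of_mem hv, X.dual_of_mem hw, map_smul, map_smul, LinearMap.smul_apply,
    LinearMap.smul_apply,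
    X.B_off _ _ _ _ _ _ hv (X.conj_mem _ _ _ hw) (by simp only [ne_eq, Prod.mk.injEq]; omega),
    X.B_off _ _ _ _ _ _ hw (X.conj_mem _ _ _ hv) (by simp only [ne_eq, Prod.mk.injEq]; omega)]
  simp

/-- the form on homogeneous elements of complementary degrees `k`, `2n-k`, `k = n` mod 2 -/
theorem form_lead {p q p' q' : ℕ} {v w : V} (hv : v ∈ X.H p q) (hw : w ∈ X.H p' q')
    (h : p + q + p' + q' = 2 * n) (hpar : (p + q) % 2 = n % 2) :
    X.form v w = 2 * (I ^ (p + q) * X.B v (X.conj w)).re := by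
  have hcv := X.conj_mem _ _ _ hv
  have hcw := X.conj_mem _ _ _ hw
  have h1 : X.B (X.dual w) (X.conj v) = (starRingEnd ℂ) (X.B (X.dual v) (X.conj w)) := by
    rw [← X.B_conj, X.conj_conj, X.dual_of_mem hv, X.dual_of_mem hw, X.conj_smul, map_smul,
      map_smul, LinearMap.smul_apply, LinearMap.smul_apply, X.B_comm _ _ _ _ _ _ hcv hw,
      smul_eq_mul, smul_eq_mul, map_pow, conj_I, ← mul_assoc]
    congr 1
    obtain ⟨d, hd⟩ : ∃ d, p' + q' = p + q + 2 * d ∨ p + q = p' + q' + 2 * d := by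
      rcases le_total (p + q) (p' + q') with hle | hle
      · exact ⟨(p' + q' - (p + q)) / 2, Or.inl (by omega)⟩
      · exact ⟨(p + q - (p' + q')) / 2, Or.inr (by omega)⟩
    have e1 : ∀ m : ℕ, (-1 : ℂ) ^ (2 * m) = 1 := fun m => by rw [pow_mul]; norm_num
    have hdd : ∃ e, d = 2 * e := ⟨d / 2, by omega⟩
    obtain ⟨e, rfl⟩ := hdd
    have e2 : ∀ m : ℕ, I ^ (m + 2 * (2 * e)) = I ^ m := fun m => by
      rw [pow_add, show 2 * (2 * e) = 4 * e by ring, pow_mul, I_pow_four, one_pow, mul_one]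
    have hI : I ^ (p' + q') = I ^ (p + q) := by
      rcases hd with hd | hd
      · rw [hd, e2]
      · rw [hd, e2]
    have hpar2 : (-1 : ℂ) ^ ((q + p) * (p' + q')) = (-1) ^ (p + q) := by
      rcases Nat.even_or_odd (p + q) with he | ho
      · obtain ⟨m, hm⟩ := he
        have : (q + p) * (p' + q') = 2 * (m * (p' + q')) := by
          rw [show q + p = 2 * m by omega]; ring
        rw [this, e1, hm, ← two_mul, e1]
      · have ho' : Odd (p' + q') := by
          rcases hd with hd | hd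
          · rw [hd]; exact ho.add_even (even_two_mul _)
          · rw [Nat.odd_iff] at ho ⊢; omega
        have ho2 : Odd (q + p) := by rwa [add_comm]
        rw [(ho2.mul ho').neg_one_pow, ho.neg_one_pow]
    have e3 : (-1 : ℂ) ^ (p + q) * (-1) ^ (p + q) = 1 := by rw [← pow_add, ← two_mul, e1]
    rw [hpar2, hI, neg_pow I (p + q), mul_right_comm, e3, one_mul]
  rw [form_apply, h1, Complex.conj_re, X.dual_of_mem hv, map_smul, LinearMap.smul_apply,
    smul_eq_mul]
  ring

theorem indep : iSupIndep (fun x : ℕ × ℕ => X.H x.1 x.2) := X.internal.submodule_iSupIndep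

theorem iSup_H : ⨆ x : ℕ × ℕ, X.H x.1 x.2 = ⊤ := X.internal.submodule_iSup_eq_top

theorem B_eq_zero_of {v : V} (h : ∀ p q, ∀ b ∈ X.H p q, X.B v b = 0) : v = 0 := by
  refine X.nondeg v fun b => ?_
  have hb : b ∈ ⨆ x : ℕ × ℕ, X.H x.1 x.2 := by rw [X.iSup_H]; trivial
  induction hb using Submodule.iSup_induction' with
  | mem x b hb => exact h _ _ b hb
  | zero => simp
  | add b c _ _ hb hc => rw [map_add, hb, hc, add_zero]

theorem exists_B_ne {p q : ℕ} (hp : p ≤ n) (hq : q ≤ n) {v : V} (hv : v ∈ X.H p q)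
    (h0 : v ≠ 0) : ∃ b ∈ X.H (n - p) (n - q), X.B v b ≠ 0 := by
  by_contra hcon
  push Not at hcon
  refine h0 (X.B_eq_zero_of fun a c b hb => ?_)
  by_cases hab : a = n - p ∧ c = n - q
  · obtain ⟨rfl, rfl⟩ := hab
    exact hcon b hb
  · refine X.B_off _ _ _ _ _ _ hv hb fun h => hab ?_
    simp only [Prod.mk.injEq] at h
    omega

theorem exists_form_ne {p q : ℕ} (hp : p ≤ n) (hq : q ≤ n) (hpar : (p + q) % 2 = n % 2) {v : V}
    (hv : v ∈ X.H p q) (h0 : v ≠ 0) : ∃ w ∈ X.H (n - q) (n - p), X.form v w ≠ 0 := by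
  obtain ⟨b, hb, hne⟩ := X.exists_B_ne hp hq hv h0
  set c : ℂ := I ^ (p + q) * X.B v b with hc
  have hc0 : c ≠ 0 := mul_ne_zero (pow_ne_zero _ I_ne_zero) hne
  refine ⟨c • X.conj b, Submodule.smul_mem _ _ (X.conj_mem _ _ _ hb), ?_⟩
  rw [X.form_lead hv (Submodule.smul_mem _ _ (X.conj_mem _ _ _ hb)) (by omega) hpar, X.conj_smul,
    X.conj_conj, map_smul, smul_eq_mul]
  have e : I ^ (p + q) * ((starRingEnd ℂ) c * X.B v b) = (Complex.normSq c : ℂ) := by
    rw [Complex.normSq_eq_conj_mul_self, hc]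
    ring
  rw [e, Complex.ofReal_re]
  have := Complex.normSq_pos.2 hc0
  positivity

/-- hard Lefschetz -/
theorem lefschetz {p q : ℕ} {a : V} (ha : a ∈ X.H p q) (hpq : p + q ≤ n)
    (h : (X.L ^ (n - (p + q))) a = 0) : a = 0 := by
  by_contra h0
  obtain ⟨r, hr, he⟩ := X.hodgeRiemann p q a ha hpq
    (by rw [pow_succ', Module.End.mul_apply, h, map_zero]) h0
  rw [h, map_zero, LinearMap.zero_apply, mul_zero] at he
  have : r = 0 := by exact_mod_cast he.symm
  exact hr.ne' this

variable [FiniteDimensional ℂ V]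

theorem h_le_serre {p q : ℕ} (hp : p ≤ n) (hq : q ≤ n) : X.h p q ≤ X.h (n - p) (n - q) := by
  let f : X.H p q →ₗ[ℂ] Dual ℂ (X.H (n - p) (n - q)) :=
    X.B.domRestrict₁₂ (X.H p q) (X.H (n - p) (n - q))
  have hinj : Function.Injective f := by
    rw [injective_iff_map_eq_zero]
    rintro ⟨v, hv⟩ hfv
    by_contra h0
    have h0' : v ≠ 0 := fun h => h0 (Subtype.ext h)
    obtain ⟨b, hb, hne⟩ := X.exists_B_ne hp hq hv h0'
    exact hne (LinearMap.congr_fun hfv ⟨b, hb⟩)
  have h1 := LinearMap.finrank_le_finrank_of_injective hinj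
  rwa [Subspace.dual_finrank_eq] at h1

/-- Serre duality -/
theorem h_serre {p q : ℕ} (hp : p ≤ n) (hq : q ≤ n) : X.h (n - p) (n - q) = X.h p q := by
  refine le_antisymm ?_ (X.h_le_serre hp hq)
  have := X.h_le_serre (Nat.sub_le n p) (Nat.sub_le n q)
  rwa [Nat.sub_sub_self hp, Nat.sub_sub_self hq] at this

/-- conjugation as a real linear map -/
noncomputable def conjR : V →ₗ[ℝ] V where
  toFun := X.conj
  map_add' := map_add X.conj
  map_smul' := X.conj_real_smul

theorem h_le_conj (p q : ℕ) : X.h p q ≤ X.h q p := by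
  have hinj : Function.Injective X.conjR := fun a b hab => by
    rw [← X.conj_conj a, ← X.conj_conj b]
    exact congrArg X.conj hab
  have h1 : ((X.H p q).restrictScalars ℝ).map X.conjR ≤ (X.H q p).restrictScalars ℝ := by
    rintro _ ⟨a, ha, rfl⟩
    exact X.conj_mem _ _ _ ha
  have : FiniteDimensional ℝ V := FiniteDimensional.complexToReal V
  have h2 := Submodule.finrank_mono h1
  have h3 : finrank ℝ (((X.H p q).restrictScalars ℝ).map X.conjR) =
      finrank ℝ ((X.H p q).restrictScalars ℝ) :=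
    (Submodule.equivMapOfInjective X.conjR hinj _).symm.finrank_eq
  rw [h3, finrank_restrict, finrank_restrict] at h2
  unfold h
  omega

/-- Hodge symmetry -/
theorem h_conj (p q : ℕ) : X.h p q = X.h q p := le_antisymm (X.h_le_conj p q) (X.h_le_conj q p)

end HodgeForm

end Pool.Agent.Hodge81
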