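import Pool.Agent.Helper81.HodgeF.Quot

/-!
# Isometries pass to the quotients
-/

set_option autoImplicit false

namespace Pool.Agent.Hodge81

open Complex Module

namespace HodgeRing

variable {n : ℕ} {A : Type*} [Ring A] [Algebra ℂ A] (X : HodgeRing n A)

theorem sc1_mem (s : ℝ) : (s : ℂ) • X.c1 ∈ X.H 1 1 := Submodule.smul_mem _ _ X.c1_mem

theorem sc1_real (s : ℝ) : X.conj ((s : ℂ) • X.c1) = (s : ℂ) • X.c1 := by
  rw [X.conj_smul, Complex.conj_ofReal, X.c1_real]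

/-- the quotient by the kernel of `(s c1) ^ j` -/
noncomputable abbrev Q {s : ℝ} {b : ℕ} (hs : IsSemiample X s b) (j : ℕ) (hj : j ≤ b) :
    HodgeForm (n - j) (A ⧸ kerK ((s : ℂ) • X.c1) j) :=
  X.quot hs j hj (X.sc1_mem s) (X.sc1_real s)

theorem dual_Q {s : ℝ} {b : ℕ} (hs : IsSemiample X s b) (j : ℕ) (hj : j ≤ b) (a : A) :
    (X.Q hs j hj).dual ((kerK ((s : ℂ) • X.c1) j).mkQ a) =
      (kerK ((s : ℂ) • X.c1) j).mkQ (X.dual a) := by
  refine X.induct (P := fun a => (X.Q hs j hj).dual ((kerK ((s : ℂ) • X.c1) j).mkQ a) =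
      (kerK ((s : ℂ) • X.c1) j).mkQ (X.dual a)) (fun p q a ha => ?_) (by simp)
    (fun a b ha hb => by simp only [map_add, ha, hb]) a
  have h1 : (kerK ((s : ℂ) • X.c1) j).mkQ a ∈ (X.Q hs j hj).H p q := ⟨a, ha, rfl⟩
  rw [(X.Q hs j hj).dual_of_mem h1, X.dual_of_mem ha, map_smul]

theorem column_Q {s : ℝ} {b : ℕ} (hs : IsSemiample X s b) (j : ℕ) (hj : j ≤ b) (i : ℤ) :
    (X.Q hs j hj).column i = (X.column i).map (kerK ((s : ℂ) • X.c1) j).mkQ := by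
  unfold HodgeForm.column column
  rw [Submodule.map_iSup]
  refine iSup_congr fun x => ?_
  rw [Submodule.map_iSup]
  rfl

theorem dual_sc1_pow (s : ℝ) (j : ℕ) (v : A) :
    X.dual (((s : ℂ) • X.c1) ^ j * v) = (-1 : ℂ) ^ j • (((s : ℂ) • X.c1) ^ j * X.dual v) := by
  rw [_root_.smul_pow, smul_mul_assoc, smul_mul_assoc, map_smul, X.dual_pow_mul, smul_comm]

theorem h_Q {s : ℝ} {b : ℕ} (hs : IsSemiample X s b) (j p : ℕ) (hj : j ≤ b) (hp : p + j ≤ b) :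
    (X.Q hs j hj).h p 0 = X.h p 0 := by
  have h1 : LinearMap.ker ((kerK ((s : ℂ) • X.c1) j).mkQ.domRestrict (X.H p 0)) = ⊥ := by
    rw [LinearMap.ker_eq_bot']
    rintro ⟨a, ha⟩ h
    have h2 : (kerK ((s : ℂ) • X.c1) j).mkQ a = 0 := h
    rw [mkQ_eq_zero] at h2
    exact Subtype.ext (hs.forms j p a ha hp h2)
  have h3 := LinearMap.finrank_range_of_inj (LinearMap.ker_eq_bot.1 h1)
  have h4 : LinearMap.range ((kerK ((s : ℂ) • X.c1) j).mkQ.domRestrict (X.H p 0)) =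
      (X.Q hs j hj).H p 0 := by
    ext x
    constructor
    · rintro ⟨⟨a, ha⟩, rfl⟩
      exact ⟨a, ha, rfl⟩
    · rintro ⟨a, ha, rfl⟩
      exact ⟨⟨a, ha⟩, rfl⟩
  rw [h4] at h3
  exact h3

end HodgeRing

namespace IsMukaiIsometry

variable {n : ℕ} {A B : Type*} [Ring A] [Algebra ℂ A] [Ring B] [Algebra ℂ B]
variable {X : HodgeRing n A} {Y : HodgeRing n B} {phi : A ≃ₗ[ℂ] B}

theorem sc1_pow_mul (hphi : IsMukaiIsometry X Y phi) (s : ℝ) (j : ℕ) (v : A) :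
    phi (((s : ℂ) • X.c1) ^ j * v) = ((s : ℂ) • Y.c1) ^ j * phi v := by
  rw [_root_.smul_pow, _root_.smul_pow, smul_mul_assoc, smul_mul_assoc, map_smul,
    hphi.c1_pow_mul]

theorem map_kerK (hphi : IsMukaiIsometry X Y phi) (s : ℝ) (j : ℕ) :
    (HodgeRing.kerK ((s : ℂ) • X.c1) j).map phi.toLinearMap =
      HodgeRing.kerK ((s : ℂ) • Y.c1) j := by
  ext w
  constructor
  · rintro ⟨v, hv, rfl⟩
    have hv' : ((s : ℂ) • X.c1) ^ j * v = 0 := (HodgeRing.mem_kerK (n := 0)).1 hv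
    rw [HodgeRing.mem_kerK (n := 0)]
    rw [LinearEquiv.coe_coe, ← hphi.sc1_pow_mul, hv', map_zero]
  · intro hw
    obtain ⟨v, rfl⟩ := phi.surjective w
    refine ⟨v, ?_, rfl⟩
    rw [HodgeRing.mem_kerK (n := 0), ← hphi.sc1_pow_mul] at hw
    refine (HodgeRing.mem_kerK (n := 0)).2 ?_
    exact (map_eq_zero_iff _ phi.injective).1 hw

/-- the induced isomorphism of the quotients -/
noncomputable def phiQ (hphi : IsMukaiIsometry X Y phi) (s : ℝ) (j : ℕ) :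
    (A ⧸ HodgeRing.kerK ((s : ℂ) • X.c1) j) ≃ₗ[ℂ] (B ⧸ HodgeRing.kerK ((s : ℂ) • Y.c1) j) :=
  Submodule.Quotient.equiv _ _ phi (hphi.map_kerK s j)

theorem phiQ_mk (hphi : IsMukaiIsometry X Y phi) (s : ℝ) (j : ℕ) (a : A) :
    hphi.phiQ s j ((HodgeRing.kerK ((s : ℂ) • X.c1) j).mkQ a) =
      (HodgeRing.kerK ((s : ℂ) • Y.c1) j).mkQ (phi a) := rfl

theorem isFormIsometry (hphi : IsMukaiIsometry X Y phi) {s : ℝ} {b : ℕ}
    (hX : IsSemiample X s b) (hY : IsSemiample Y s b) (j : ℕ) (hj : j ≤ b) :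
    IsFormIsometry (X.Q hX j hj) (Y.Q hY j hj) (hphi.phiQ s j) where
  conj x := by
    obtain ⟨a, rfl⟩ := Submodule.mkQ_surjective _ x
    have e1 : (X.Q hX j hj).conj ((HodgeRing.kerK ((s : ℂ) • X.c1) j).mkQ a) =
      (HodgeRing.kerK ((s : ℂ) • X.c1) j).mkQ (X.conj a) := rfl
    have e2 : (Y.Q hY j hj).conj ((HodgeRing.kerK ((s : ℂ) • Y.c1) j).mkQ (phi a)) =
      (HodgeRing.kerK ((s : ℂ) • Y.c1) j).mkQ (Y.conj (phi a)) := rfl
    rw [e1, phiQ_mk, phiQ_mk, e2, hphi.conj]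
  column i := by
    rw [X.column_Q, Y.column_Q, ← hphi.column i, ← Submodule.map_comp, ← Submodule.map_comp]
    rfl
  form x y := by
    obtain ⟨v, rfl⟩ := Submodule.mkQ_surjective _ x
    obtain ⟨w, rfl⟩ := Submodule.mkQ_surjective _ y
    rw [X.dual_Q, phiQ_mk, phiQ_mk, Y.dual_Q]
    have e1 : (Y.Q hY j hj).B ((HodgeRing.kerK ((s : ℂ) • Y.c1) j).mkQ (Y.dual (phi v)))
        ((HodgeRing.kerK ((s : ℂ) • Y.c1) j).mkQ (phi w)) =
        Y.int (((s : ℂ) • Y.c1) ^ j * (Y.dual (phi v) * phi w)) := Y.BQ_mk (Y.sc1_mem s) j _ _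
    have e2 : (X.Q hX j hj).B ((HodgeRing.kerK ((s : ℂ) • X.c1) j).mkQ (X.dual v))
        ((HodgeRing.kerK ((s : ℂ) • X.c1) j).mkQ w) =
        X.int (((s : ℂ) • X.c1) ^ j * (X.dual v * w)) := X.BQ_mk (X.sc1_mem s) j _ _
    have e0 : (-1 : ℂ) ^ j * (-1) ^ j = 1 := by rw [← mul_pow]; norm_num
    have e3 : Y.int (((s : ℂ) • Y.c1) ^ j * (Y.dual (phi v) * phi w)) =
        (-1) ^ j * Y.h0 (((s : ℂ) • Y.c1) ^ j * phi v) (phi w) := by
      rw [HodgeRing.h0, Y.dual_sc1_pow, smul_mul_assoc, map_smul, smul_eq_mul,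
        ← mul_assoc ((-1 : ℂ) ^ j) ((-1 : ℂ) ^ j), e0, one_mul, mul_assoc]
    have e4 : X.int (((s : ℂ) • X.c1) ^ j * (X.dual v * w)) =
        (-1) ^ j * X.h0 (((s : ℂ) • X.c1) ^ j * v) w := by
      rw [HodgeRing.h0, X.dual_sc1_pow, smul_mul_assoc, map_smul, smul_eq_mul,
        ← mul_assoc ((-1 : ℂ) ^ j) ((-1 : ℂ) ^ j), e0, one_mul, mul_assoc]
    rw [e1, e2, e3, e4, ← hphi.sc1_pow_mul, hphi.h0]

end IsMukaiIsometry

end Pool.Agent.Hodge81
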