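import Pool.Agent.Helper81.HodgeF.Semi

/-!
# Comparison of two varieties
-/

set_option autoImplicit false

namespace Pool.Agent.Hodge81

open Complex Module

namespace HodgeForm

variable {n : ℕ} {A : Type*} [AddCommGroup A] [Module ℂ A] (X : HodgeForm n A)
  [FiniteDimensional ℂ A]

/-- the dimensions in one column -/
theorem dims {a b r : ℕ} (hn : a + b + 2 * r = n) (hab : a = 0 ∨ b = 0) :
    finrank ℂ (X.semi a b r 0) + X.h (a + r) (b + r) =
      2 * ∑ k ∈ Finset.range (r + 1),
        (if k % 2 = 0 then X.h (a + (r - k)) (b + (r - k)) else 0) ∧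
    finrank ℂ (X.semi a b r 1) =
      2 * ∑ k ∈ Finset.range (r + 1),
        (if k % 2 = 1 then X.h (a + (r - k)) (b + (r - k)) else 0) ∧
    finrank ℂ (X.semi a b r 0) + finrank ℂ (X.semi a b r 1) =
      finrank ℂ (⨆ j ∈ Finset.range (2 * r + 1), X.H (a + j) (b + j) : Submodule ℂ A) := by
  have hlast : X.h (a + (r + (r + 1))) (b + (r + (r + 1))) = 0 := by
    unfold h
    rw [X.bounded _ _ (by rcases hab with h | h <;> omega), finrank_bot]
  obtain ⟨c1, c2⟩ := count_aux (fun k => X.h (a + (r + k)) (b + (r + k)))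
    (fun k => finrank ℂ (X.prim a b r k)) (r + 1) (fun k hk => by
      have h1 := X.finrank_prim hn (show k ≤ r by omega) hab
      have h2 := X.h_symm hn (show k ≤ r by omega)
      rw [← h2, ← h1]
      rfl)
  have hE : ∀ t, ∑ k ∈ Finset.range (r + 1 + 1),
      (if k % 2 = t then X.h (a + (r + k)) (b + (r + k)) else 0) =
      ∑ k ∈ Finset.range (r + 1), (if k % 2 = t then X.h (a + (r - k)) (b + (r - k)) else 0) := by
    intro t
    rw [Finset.sum_range_succ, hlast, ite_self, add_zero]
    refine Finset.sum_congr rfl fun k hk => ?_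
    rw [X.h_symm hn (show k ≤ r by simp only [Finset.mem_range] at hk; omega)]
  have hE' : ∀ t, ∑ k ∈ Finset.range (r + 1),
      (if k % 2 = t then X.h (a + (r + k)) (b + (r + k)) else 0) =
      ∑ k ∈ Finset.range (r + 1), (if k % 2 = t then X.h (a + (r - k)) (b + (r - k)) else 0) := by
    intro t
    refine Finset.sum_congr rfl fun k hk => ?_
    rw [X.h_symm hn (show k ≤ r by simp only [Finset.mem_range] at hk; omega)]
  simp only [hE, hE', add_zero] at c1 c2
  have hf : ∑ j ∈ Finset.Ioc r (2 * r), X.h (a + j) (b + j) + X.h (a + r) (b + r) =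
      ∑ k ∈ Finset.range (r + 1), X.h (a + (r - k)) (b + (r - k)) := by
    have e1 : ∑ k ∈ Finset.range (r + 1), X.h (a + (r - k)) (b + (r - k)) =
        ∑ k ∈ Finset.range (r + 1), X.h (a + (r + k)) (b + (r + k)) := by
      refine Finset.sum_congr rfl fun k hk => ?_
      rw [X.h_symm hn (show k ≤ r by simp only [Finset.mem_range] at hk; omega)]
    rw [e1, Finset.sum_range_succ']
    congr 1
    have e2 : Finset.Ioc r (2 * r) = Finset.Ico (r + 1) (2 * r + 1) := by
      ext x
      simp only [Finset.mem_Ioc, Finset.mem_Ico]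
      omega
    rw [e2, Finset.sum_Ico_eq_sum_range, show 2 * r + 1 - (r + 1) = r by omega]
    refine Finset.sum_congr rfl fun k _ => ?_
    rw [show r + 1 + k = r + (k + 1) by ring]
  have hsplit : ∑ k ∈ Finset.range (r + 1), X.h (a + (r - k)) (b + (r - k)) =
      (∑ k ∈ Finset.range (r + 1), (if k % 2 = 0 then X.h (a + (r - k)) (b + (r - k)) else 0)) +
      ∑ k ∈ Finset.range (r + 1), (if k % 2 = 1 then X.h (a + (r - k)) (b + (r - k)) else 0) := by
    rw [← Finset.sum_add_distrib]
    refine Finset.sum_congr rfl fun k _ => ?_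
    rcases Nat.mod_two_eq_zero_or_one k with h0 | h1
    · simp [h0]
    · simp [h1]
  have hC : finrank ℂ (⨆ j ∈ Finset.range (2 * r + 1), X.H (a + j) (b + j) : Submodule ℂ A) =
      ∑ k ∈ Finset.range (r + 1), X.h (a + (r - k)) (b + (r - k)) +
        ∑ j ∈ Finset.Ioc r (2 * r), X.h (a + j) (b + j) := by
    rw [X.finrank_pieces]
    have e1 := Finset.sum_range_reflect (fun j => X.h (a + j) (b + j)) (r + 1)
    simp only [Nat.add_sub_cancel] at e1
    have e3 : ∀ j : ℕ, r + 1 - 1 - j = r - j := fun j => by omega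
    rw [e1]
    have e2 : Finset.Ioc r (2 * r) = Finset.Ico (r + 1) (2 * r + 1) := by
      ext x
      simp only [Finset.mem_Ioc, Finset.mem_Ico]
      omega
    rw [e2, Finset.range_eq_Ico, Finset.range_eq_Ico,
      Finset.sum_Ico_consecutive _ (Nat.zero_le _) (by omega)]
  rw [X.finrank_semi hn, X.finrank_semi hn, hC]
  refine ⟨?_, ?_, ?_⟩ <;> omega

end HodgeForm

/-- an isometry of polarised bigraded spaces: it commutes with conjugation, maps columns onto
columns and preserves `B (dual v) w` -/
structure IsFormIsometry {n : ℕ} {A B : Type*} [AddCommGroup A] [Module ℂ A] [AddCommGroup B]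
    [Module ℂ B] (X : HodgeForm n A) (Y : HodgeForm n B) (phi : A ≃ₗ[ℂ] B) : Prop where
  conj : ∀ a, phi (X.conj a) = Y.conj (phi a)
  column : ∀ i, (X.column i).map phi.toLinearMap = Y.column i
  form : ∀ v w, Y.B (Y.dual (phi v)) (phi w) = X.B (X.dual v) w

namespace IsFormIsometry

variable {n : ℕ} {A B : Type*} [AddCommGroup A] [Module ℂ A] [FiniteDimensional ℂ A]
  [AddCommGroup B] [Module ℂ B] [FiniteDimensional ℂ B]

omit [FiniteDimensional ℂ A] [FiniteDimensional ℂ B] in
theorem form_map {X : HodgeForm n A} {Y : HodgeForm n B} {phi : A ≃ₗ[ℂ] B}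
    (hphi : IsFormIsometry X Y phi) (v w : A) : Y.form (phi v) (phi w) = X.form v w := by
  rw [HodgeForm.form_apply, HodgeForm.form_apply, ← hphi.conj, ← hphi.conj, hphi.form,
    hphi.form]

omit [FiniteDimensional ℂ A] in
theorem transfer_le {X : HodgeForm n A} {Y : HodgeForm n B} {phi : A ≃ₗ[ℂ] B}
    (hphi : IsFormIsometry X Y phi) {a b r : ℕ} (hn : a + b + 2 * r = n)
    (hab : a = 0 ∨ b = 0) {s t : ℕ} (hst : s + t = 1) :
    finrank ℂ (X.semi a b r s) + finrank ℂ (Y.semi a b r t) ≤
      finrank ℂ (⨆ j ∈ Finset.range (2 * r + 1), Y.H (a + j) (b + j) : Submodule ℂ B) := by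
  set e : ℝ := (-1 : ℝ) ^ (b + r + n * (n - 1) / 2) * (-1) ^ s with he
  have he0 : e ≠ 0 := by
    rw [he]
    exact mul_ne_zero (pow_ne_zero _ (by norm_num)) (pow_ne_zero _ (by norm_num))
  set C : Submodule ℂ B := ⨆ j ∈ Finset.range (2 * r + 1), Y.H (a + j) (b + j) with hC
  have hfd : FiniteDimensional ℝ B := FiniteDimensional.complexToReal B
  have hcol := hphi.column ((a : ℤ) - (b : ℤ))
  rw [X.column_eq hn hab, Y.column_eq hn hab] at hcol
  have key := finrank_add_le' (e • Y.form)
    (fun v w => by simp only [LinearMap.smul_apply, Y.form_symm v w])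
    (C.restrictScalars ℝ)
    (fun v hv h => Y.form_nondeg hn hv fun w hw => by
      have := h w hw
      simp only [LinearMap.smul_apply, smul_eq_mul] at this
      exact (mul_eq_zero.1 this).resolve_left he0)
    (((X.semi a b r s).map phi.toLinearMap).restrictScalars ℝ)
    ((Y.semi a b r t).restrictScalars ℝ)
    (by
      rintro _ ⟨y, hy, rfl⟩
      have : phi y ∈ C := by
        rw [hC, ← hcol]
        exact Submodule.mem_map_of_mem (X.semi_le a b r s hy)
      exact this)
    (fun y hy => Y.semi_le a b r t hy)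
    (by
      rintro _ ⟨y, hy, rfl⟩
      have h1 := X.form_semi hn hy
      have h2 : Y.form (phi y) (phi y) = X.form y y := form_map hphi y y
      simp only [LinearMap.smul_apply, smul_eq_mul, LinearEquiv.coe_coe]
      rw [h2]
      exact h1)
    (by
      intro z hz
      have h1 := Y.form_semi hn hz
      have h3 : (-1 : ℝ) ^ s = -(-1) ^ t := by
        rcases Nat.eq_zero_or_pos s with h | h
        · have ht : t = 1 := by omega
          subst ht
          rw [h]
          norm_num
        · have hs : s = 1 := by omega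
          have ht : t = 0 := by omega
          subst ht
          rw [hs]
          norm_num
      simp only [LinearMap.smul_apply, smul_eq_mul]
      rw [he, h3]
      linarith)
  rw [finrank_restrict, finrank_restrict, finrank_restrict] at key
  have h4 : finrank ℂ ((X.semi a b r s).map phi.toLinearMap) = finrank ℂ (X.semi a b r s) :=
    (phi.submoduleMap (X.semi a b r s)).symm.finrank_eq
  rw [h4] at key
  omega

omit [FiniteDimensional ℂ A] [FiniteDimensional ℂ B] in
/-- the dimension of a column -/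
theorem column_finrank {X : HodgeForm n A} {Y : HodgeForm n B} {phi : A ≃ₗ[ℂ] B}
    (hphi : IsFormIsometry X Y phi) (i : ℤ) :
    finrank ℂ (X.column i) = finrank ℂ (Y.column i) := by
  rw [← hphi.column i]
  exact (phi.submoduleMap (X.column i)).finrank_eq

theorem transfer {X : HodgeForm n A} {Y : HodgeForm n B} {phi : A ≃ₗ[ℂ] B}
    (hphi : IsFormIsometry X Y phi) {a b r : ℕ} (hn : a + b + 2 * r = n)
    (hab : a = 0 ∨ b = 0) :
    finrank ℂ (X.semi a b r 0) = finrank ℂ (Y.semi a b r 0) ∧
      finrank ℂ (X.semi a b r 1) = finrank ℂ (Y.semi a b r 1) := by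
  have h1 := transfer_le hphi hn hab (s := 0) (t := 1) rfl
  have h2 := transfer_le hphi hn hab (s := 1) (t := 0) rfl
  have hX := (X.dims hn hab).2.2
  have hY := (Y.dims hn hab).2.2
  have hc := column_finrank hphi ((a : ℤ) - (b : ℤ))
  rw [X.column_eq hn hab, Y.column_eq hn hab] at hc
  constructor <;> omega

/-- main theorem, first form -/
theorem main_aux {X : HodgeForm n A} {Y : HodgeForm n B} {phi : A ≃ₗ[ℂ] B}
    (hphi : IsFormIsometry X Y phi) {p q : ℕ} (hpq : p + q = n) :
    (∑ k ∈ Finset.range (min p q + 1), (if k % 2 = 1 then X.h (p - k) (q - k) else 0) =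
      ∑ k ∈ Finset.range (min p q + 1), (if k % 2 = 1 then Y.h (p - k) (q - k) else 0)) ∧
    (2 * ∑ k ∈ Finset.range (min p q + 1), (if k % 2 = 0 then X.h (p - k) (q - k) else 0) +
        Y.h p q =
      2 * ∑ k ∈ Finset.range (min p q + 1), (if k % 2 = 0 then Y.h (p - k) (q - k) else 0) +
        X.h p q) := by
  obtain ⟨a, b, r, hp, hq, hr, hab⟩ : ∃ a b r, p = a + r ∧ q = b + r ∧ min p q = r ∧
      (a = 0 ∨ b = 0) := by
    refine ⟨p - min p q, q - min p q, min p q, ?_, ?_, rfl, ?_⟩ <;> omega
  have hn : a + b + 2 * r = n := by omega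
  obtain ⟨t0, t1⟩ := transfer hphi hn hab
  obtain ⟨x0, x1, -⟩ := X.dims hn hab
  obtain ⟨y0, y1, -⟩ := Y.dims hn hab
  have e : ∀ (h : ℕ → ℕ → ℕ) (t : ℕ),
      ∑ k ∈ Finset.range (r + 1), (if k % 2 = t then h (a + (r - k)) (b + (r - k)) else 0) =
      ∑ k ∈ Finset.range (r + 1), (if k % 2 = t then h (p - k) (q - k) else 0) := by
    intro h t
    refine Finset.sum_congr rfl fun k hk => ?_
    simp only [Finset.mem_range] at hk
    rw [show a + (r - k) = p - k by omega, show b + (r - k) = q - k by omega]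
  rw [e X.h] at x0 x1
  rw [e Y.h] at y0 y1
  rw [← hp, ← hq] at x0 y0
  rw [hr]
  constructor <;> omega

end IsFormIsometry

end Pool.Agent.Hodge81
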