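import Pool.Agent.Helper81.Hodge.Defs

/-!
# Semiample multiples of the first Chern class
-/

set_option autoImplicit false

namespace Pool.Agent.Hodge81

open Complex

/-- `K = s c1` (for example the canonical class, `s = -1`) behaves like a semiample class whose
Iitaka fibration `f : X → B` has `dim B = b`. For `j ≤ b` the intersection `Z` of `j` general members
of `|mK|` is smooth, `H^*(X) / ker K^j` is the image of `H^*(X)` in `H^*(Z)`, and satisfies the
Hodge-Riemann relations in dimension `n - j`; a nonzero holomorphic `p`-form on `X` restricts to a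
nonzero form on `Z` if `p + j ≤ b`. -/
structure IsSemiample {n : ℕ} {A : Type*} [Ring A] [Algebra ℂ A] (X : HodgeRing n A) (s : ℝ)
    (b : ℕ) : Prop where
  le : b ≤ n
  hodgeRiemann : ∀ j ≤ b, ∀ p q a, a ∈ X.H p q → p + q + j ≤ n →
    ((s : ℂ) • X.c1) ^ j * (X.omega ^ (n - j - (p + q) + 1) * a) = 0 →
    ((s : ℂ) • X.c1) ^ j * a ≠ 0 →
    ∃ r : ℝ, 0 < r ∧ I ^ p * (-I) ^ q * (-1) ^ ((p + q) * (p + q - 1) / 2) *
      X.int (((s : ℂ) • X.c1) ^ j * (X.omega ^ (n - j - (p + q)) * a * X.conj a)) = (r : ℂ)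
  forms : ∀ j p a, a ∈ X.H p 0 → p + j ≤ b → ((s : ℂ) • X.c1) ^ j * a = 0 → a = 0

end Pool.Agent.Hodge81
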