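import Pool.Agent.Helper81.HodgeF.Chern
import Pool.Agent.Helper81.HodgeF.Semiample

/-!
# The quotient of the cohomology by the kernel of a power of `K`
-/

set_option autoImplicit false

namespace Pool.Agent.Hodge81

open Complex Module

namespace HodgeRing

variable {n : ℕ} {A : Type*} [Ring A] [Algebra ℂ A] (X : HodgeRing n A)

/-- the kernel of `K ^ j` -/
def kerK {A : Type*} [Ring A] [Algebra ℂ A] (K : A) (j : ℕ) : Submodule ℂ A :=
  LinearMap.ker (LinearMap.mulLeft ℂ (K ^ j))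

omit X in
theorem mem_kerK {n : ℕ} {A : Type*} [Ring A] [Algebra ℂ A] {K : A} {j : ℕ} {a : A} :
    a ∈ kerK K j ↔ K ^ j * a = 0 := by
  simp [kerK]

/-- a linear section of the quotient map -/
noncomputable def sec (K : A) (j : ℕ) : (A ⧸ kerK K j) →ₗ[ℂ] A :=
  Classical.choose (LinearMap.exists_rightInverse_of_surjective (kerK K j).mkQ
    (Submodule.range_mkQ _))

omit X in
theorem mk_sec (K : A) (j : ℕ) (x : A ⧸ kerK K j) : (kerK K j).mkQ (sec K j x) = x :=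
  LinearMap.congr_fun (Classical.choose_spec (LinearMap.exists_rightInverse_of_surjective
    (kerK K j).mkQ (Submodule.range_mkQ _))) x

omit X in
theorem pow_mul_sec (K : A) (j : ℕ) (a : A) :
    K ^ j * sec K j ((kerK K j).mkQ a) = K ^ j * a := by
  have h1 := mk_sec K j ((kerK K j).mkQ a)
  have h2 : sec K j ((kerK K j).mkQ a) - a ∈ kerK K j := by
    rw [← Submodule.Quotient.eq]
    exact h1
  rw [mem_kerK (n := 0), mul_sub, sub_eq_zero] at h2
  exact h2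

/-- the pairing twisted by `K ^ j` -/
noncomputable def BK (K : A) (j : ℕ) : A →ₗ[ℂ] A →ₗ[ℂ] ℂ :=
  (LinearMap.mul ℂ A).compr₂ (X.int ∘ₗ LinearMap.mulLeft ℂ (K ^ j))

theorem BK_apply (K : A) (j : ℕ) (a b : A) : X.BK K j a b = X.int (K ^ j * (a * b)) := rfl

noncomputable def BQ (K : A) (j : ℕ) : (A ⧸ kerK K j) →ₗ[ℂ] (A ⧸ kerK K j) →ₗ[ℂ] ℂ :=
  (X.BK K j).compl₁₂ (sec K j) (sec K j)

theorem BQ_mk {K : A} (hK : K ∈ X.H 1 1) (j : ℕ) (a b : A) :
    X.BQ K j ((kerK K j).mkQ a) ((kerK K j).mkQ b) = X.int (K ^ j * (a * b)) := by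
  have e : X.BQ K j ((kerK K j).mkQ a) ((kerK K j).mkQ b) =
      X.int (K ^ j * (sec K j ((kerK K j).mkQ a) * sec K j ((kerK K j).mkQ b))) := rfl
  rw [e, ← mul_assoc, pow_mul_sec, ← X.comm_pow_of_mem hK j a, mul_assoc, pow_mul_sec,
    ← mul_assoc, X.comm_pow_of_mem hK j a, mul_assoc]

/-- conjugation as a semilinear map -/
noncomputable def conjS : A →ₛₗ[starRingEnd ℂ] A where
  toFun := X.conj
  map_add' := map_add X.conj
  map_smul' := X.conj_smul

theorem kerK_conj {K : A} (hKr : X.conj K = K) (j : ℕ) :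
    kerK K j ≤ (kerK K j).comap X.conjS := by
  intro a ha
  rw [Submodule.mem_comap, mem_kerK (n := 0)]
  rw [mem_kerK (n := 0)] at ha
  have := congrArg X.conj ha
  rw [map_mul, map_pow, hKr, map_zero] at this
  exact this

theorem kerK_omega {K : A} (hK : K ∈ X.H 1 1) (j : ℕ) :
    kerK K j ≤ (kerK K j).comap (LinearMap.mulLeft ℂ X.omega) := by
  intro a ha
  rw [Submodule.mem_comap, mem_kerK (n := 0), LinearMap.mulLeft_apply]
  rw [mem_kerK (n := 0)] at ha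
  rw [← mul_assoc, ← X.comm_pow_of_mem hK j X.omega, mul_assoc, ha, mul_zero]

noncomputable def conjQ {K : A} (hKr : X.conj K = K) (j : ℕ) : (A ⧸ kerK K j) →+ (A ⧸ kerK K j) :=
  ((kerK K j).mapQ (kerK K j) X.conjS (X.kerK_conj hKr j)).toAddMonoidHom

theorem conjQ_mk {K : A} (hKr : X.conj K = K) (j : ℕ) (a : A) :
    X.conjQ hKr j ((kerK K j).mkQ a) = (kerK K j).mkQ (X.conj a) := rfl

noncomputable def LQ {K : A} (hK : K ∈ X.H 1 1) (j : ℕ) :
    (A ⧸ kerK K j) →ₗ[ℂ] (A ⧸ kerK K j) :=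
  (kerK K j).mapQ (kerK K j) (LinearMap.mulLeft ℂ X.omega) (X.kerK_omega hK j)

theorem LQ_mk {K : A} (hK : K ∈ X.H 1 1) (j : ℕ) (a : A) :
    X.LQ hK j ((kerK K j).mkQ a) = (kerK K j).mkQ (X.omega * a) := rfl

theorem LQ_pow_mk {K : A} (hK : K ∈ X.H 1 1) (j k : ℕ) (a : A) :
    (X.LQ hK j ^ k) ((kerK K j).mkQ a) = (kerK K j).mkQ (X.omega ^ k * a) := by
  induction k with
  | zero => simp
  | succ k ih =>
    rw [pow_succ', Module.End.mul_apply, ih, LQ_mk, pow_succ', mul_assoc]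

theorem mkQ_eq_zero {K : A} {j : ℕ} {a : A} : (kerK K j).mkQ a = 0 ↔ K ^ j * a = 0 := by
  rw [Submodule.mkQ_apply, Submodule.Quotient.mk_eq_zero, mem_kerK (n := 0)]

theorem internalQ {K : A} (hK : K ∈ X.H 1 1) (j : ℕ) :
    DirectSum.IsInternal (fun x : ℕ × ℕ => (X.H x.1 x.2).map (kerK K j).mkQ) := by
  apply DirectSum.isInternal_submodule_of_iSupIndep_of_iSup_eq_top
  · rw [iSupIndep_iff_finsetSum_eq_zero_imp_eq_zero]
    intro s v hv hsum i hi
    choose! u hu hu2 using hv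
    have h1 : ∑ i ∈ s, K ^ j * u i = 0 := by
      rw [← Finset.mul_sum, ← mkQ_eq_zero (K := K) (j := j), map_sum, ← hsum]
      exact Finset.sum_congr rfl fun i hi => hu2 i hi
    have h2 := X.indep.comp (f := fun x : ℕ × ℕ => (x.1 + j, x.2 + j)) (fun x y hxy => by
      simp only [Prod.mk.injEq, add_left_inj] at hxy
      exact Prod.ext hxy.1 hxy.2)
    rw [iSupIndep_iff_finsetSum_eq_zero_imp_eq_zero] at h2
    have h3 := h2 s (fun i => K ^ j * u i) (fun i hi => X.pow_mem hK (hu i hi) j) h1 i hi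
    rw [← hu2 i hi, mkQ_eq_zero]
    exact h3
  · rw [← Submodule.map_iSup, X.iSup_H, Submodule.map_top, Submodule.range_mkQ]

/-- the polarised bigraded space `A / ker K^j` of dimension `n - j` -/
noncomputable def quot {s : ℝ} {b : ℕ} (hs : IsSemiample X s b) (j : ℕ) (hj : j ≤ b)
    (hK : (s : ℂ) • X.c1 ∈ X.H 1 1) (hKr : X.conj ((s : ℂ) • X.c1) = (s : ℂ) • X.c1) :
    HodgeForm (n - j) (A ⧸ kerK ((s : ℂ) • X.c1) j) where
  H p q := (X.H p q).map (kerK ((s : ℂ) • X.c1) j).mkQ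
  internal := X.internalQ hK j
  bounded p q h := by
    rw [eq_bot_iff]
    rintro _ ⟨a, ha, rfl⟩
    rw [Submodule.mem_bot, mkQ_eq_zero]
    have h1 := X.pow_mem hK ha j
    have hjn := hs.le
    rw [X.bounded _ _ (by omega)] at h1
    simpa using h1
  conj := X.conjQ hKr j
  conj_smul z x := by
    obtain ⟨a, rfl⟩ := Submodule.mkQ_surjective _ x
    rw [← map_smul, conjQ_mk, conjQ_mk, X.conj_smul, map_smul]
  conj_conj x := by
    obtain ⟨a, rfl⟩ := Submodule.mkQ_surjective _ x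
    rw [conjQ_mk, conjQ_mk, X.conj_conj]
  conj_mem p q x hx := by
    obtain ⟨a, ha, rfl⟩ := hx
    exact ⟨X.conj a, X.conj_mem _ _ _ ha, rfl⟩
  B := X.BQ ((s : ℂ) • X.c1) j
  B_conj x y := by
    obtain ⟨a, rfl⟩ := Submodule.mkQ_surjective _ x
    obtain ⟨c, rfl⟩ := Submodule.mkQ_surjective _ y
    rw [conjQ_mk, conjQ_mk, X.BQ_mk hK, X.BQ_mk hK, ← X.int_conj, map_mul X.conj, map_mul X.conj,
      map_pow X.conj, hKr]
  B_off p q p' q' x y hx hy hne := by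
    obtain ⟨a, ha, rfl⟩ := hx
    obtain ⟨c, hc, rfl⟩ := hy
    rw [X.BQ_mk hK]
    refine X.int_off _ _ _ (X.pow_mem hK (X.mul_mem _ _ _ _ _ _ ha hc) j) fun h => hne ?_
    simp only [Prod.mk.injEq] at h ⊢
    omega
  B_comm p q p' q' x y hx hy := by
    obtain ⟨a, ha, rfl⟩ := hx
    obtain ⟨c, hc, rfl⟩ := hy
    rw [X.BQ_mk hK, X.BQ_mk hK, X.comm _ _ _ _ _ _ ha hc, mul_smul_comm, map_smul, smul_eq_mul]
  nondeg x hx := by
    obtain ⟨a, rfl⟩ := Submodule.mkQ_surjective _ x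
    rw [mkQ_eq_zero]
    refine X.poincare _ fun c => ?_
    have := hx ((kerK ((s : ℂ) • X.c1) j).mkQ c)
    rwa [X.BQ_mk hK, ← mul_assoc] at this
  L := X.LQ hK j
  L_mem p q x hx := by
    obtain ⟨a, ha, rfl⟩ := hx
    refine ⟨X.omega * a, ?_, rfl⟩
    have := X.mul_mem _ _ _ _ _ _ X.omega_mem ha
    rwa [add_comm 1 p, add_comm 1 q] at this
  L_conj x := by
    obtain ⟨a, rfl⟩ := Submodule.mkQ_surjective _ x
    rw [LQ_mk, conjQ_mk, conjQ_mk, LQ_mk, map_mul X.conj, X.omega_real]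
  L_adj x y := by
    obtain ⟨a, rfl⟩ := Submodule.mkQ_surjective _ x
    obtain ⟨c, rfl⟩ := Submodule.mkQ_surjective _ y
    rw [LQ_mk, LQ_mk, X.BQ_mk hK, X.BQ_mk hK, ← X.comm_of_mem X.omega_mem a, mul_assoc]
  hodgeRiemann p q x hx hpq h0 hne := by
    obtain ⟨a, ha, rfl⟩ := hx
    rw [X.LQ_pow_mk, mkQ_eq_zero] at h0
    rw [ne_eq, mkQ_eq_zero] at hne
    have hjn := hs.le
    obtain ⟨r, hr, he⟩ := hs.hodgeRiemann j hj p q a ha (by omega) h0 hne
    refine ⟨r, hr, ?_⟩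
    rw [X.LQ_pow_mk, conjQ_mk, X.BQ_mk hK]
    exact he

end HodgeRing

end Pool.Agent.Hodge81
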